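import Pool.Agent.W2helper59.LN.Stm

/-!
# P6 of MP_0170ef_an: the planar saddle window theorem
-/

set_option autoImplicit false

namespace Pool.Agent.W2helper56.LN

open Set Pool.Agent.W2helper59.LN

lemma first_fail {m : ℝ → ℝ} {s0 S : ℝ} (hm : ContinuousOn m (Icc s0 S)) (h0 : 0 < m s0)
    (step : ∀ s ∈ Ioc s0 S, (∀ r ∈ Ico s0 s, 0 < m r) → 0 < m s) :
    ∀ s ∈ Icc s0 S, 0 < m s := by
  by_contra hcon
  push Not at hcon
  obtain ⟨s, hs, hms⟩ := hcon
  have hKc : IsClosed (Icc s0 S ∩ m ⁻¹' Iic 0) :=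
    hm.preimage_isClosed_of_isClosed isClosed_Icc isClosed_Iic
  have hne : (Icc s0 S ∩ m ⁻¹' Iic 0).Nonempty := ⟨s, hs, hms⟩
  have hbd : BddBelow (Icc s0 S ∩ m ⁻¹' Iic 0) := ⟨s0, fun t ht => ht.1.1⟩
  have hT := hKc.csInf_mem hne hbd
  set T := sInf (Icc s0 S ∩ m ⁻¹' Iic 0) with hTdef
  have hT2 : m T ≤ 0 := hT.2
  have hT0 : s0 < T := lt_of_le_of_ne hT.1.1 (by
    intro h
    rw [← h] at hT2
    exact absurd hT2 (not_le.2 h0))
  have h1 := step T ⟨hT0, hT.1.2⟩ (fun r hr => by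
    by_contra hneg
    have h2 : r ∈ Icc s0 S ∩ m ⁻¹' Iic 0 := ⟨⟨hr.1, hr.2.le.trans hT.1.2⟩, not_lt.1 hneg⟩
    exact absurd (csInf_le hbd h2) (not_le.2 hr.2))
  exact absurd hT2 (not_le.2 h1)

lemma first_hit {m : ℝ → ℝ} {s0 S : ℝ} (hm : ContinuousOn m (Icc s0 S)) (hS : s0 ≤ S)
    (h0 : 0 < m s0) (hfail : m S ≤ 0) :
    ∃ T ∈ Ioc s0 S, m T = 0 ∧ ∀ r ∈ Ico s0 T, 0 < m r := by
  have hKc : IsClosed (Icc s0 S ∩ m ⁻¹' Iic 0) :=
    hm.preimage_isClosed_of_isClosed isClosed_Icc isClosed_Iic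
  have hne : (Icc s0 S ∩ m ⁻¹' Iic 0).Nonempty := ⟨S, ⟨hS, le_rfl⟩, hfail⟩
  have hbd : BddBelow (Icc s0 S ∩ m ⁻¹' Iic 0) := ⟨s0, fun t ht => ht.1.1⟩
  have hT := hKc.csInf_mem hne hbd
  set T := sInf (Icc s0 S ∩ m ⁻¹' Iic 0) with hTdef
  have hT2 : m T ≤ 0 := hT.2
  have hT0 : s0 < T := lt_of_le_of_ne hT.1.1 (by
    intro h
    rw [← h] at hT2
    exact absurd hT2 (not_le.2 h0))
  have hpos : ∀ r ∈ Ico s0 T, 0 < m r := fun r hr => by
    by_contra hneg
    have h2 : r ∈ Icc s0 S ∩ m ⁻¹' Iic 0 := ⟨⟨hr.1, hr.2.le.trans hT.1.2⟩, not_lt.1 hneg⟩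
    exact absurd (csInf_le hbd h2) (not_le.2 hr.2)
  refine ⟨T, ⟨hT0, hT.1.2⟩, ?_, hpos⟩
  apply le_antisymm hT2
  have hc : ContinuousWithinAt m (Ico s0 T) T :=
    (hm T hT.1).mono (fun r hr => ⟨hr.1, hr.2.le.trans hT.1.2⟩)
  have hcl : T ∈ closure (Ico s0 T) := by
    rw [closure_Ico (ne_of_lt hT0)]
    exact ⟨hT0.le, le_rfl⟩
  exact continuousWithinAt_const.closure_le hcl hc (fun r hr => (hpos r hr).le)

/-- comparison: `w' ≥ K w` -/
lemma exp_le {w w' : ℝ → ℝ} {s0 s K : ℝ} (hs : s0 ≤ s) (hw : ∀ t, HasDerivAt w (w' t) t)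
    (h : ∀ t ∈ Ioo s0 s, K * w t ≤ w' t) : w s0 * Real.exp (K * (s - s0)) ≤ w s := by
  have hd : ∀ t, HasDerivAt (fun t => Real.exp (-K * (t - s0)) * w t)
      (Real.exp (-K * (t - s0)) * (w' t - K * w t)) t := by
    intro t
    have h1 : HasDerivAt (fun t => -K * (t - s0)) (-K) t := by
      simpa using ((hasDerivAt_id t).sub_const s0).const_mul (-K)
    exact (h1.exp.fun_mul (hw t)).congr_deriv (by ring)
  have hmono : MonotoneOn (fun t => Real.exp (-K * (t - s0)) * w t) (Icc s0 s) := by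
    apply monotoneOn_of_deriv_nonneg (convex_Icc _ _)
    · exact fun t _ => (hd t).continuousAt.continuousWithinAt
    · exact fun t _ => (hd t).differentiableAt.differentiableWithinAt
    · intro t ht
      rw [interior_Icc] at ht
      rw [(hd t).deriv]
      exact mul_nonneg (Real.exp_pos _).le (by linarith [h t ht])
  have h3 := hmono ⟨le_rfl, hs⟩ ⟨hs, le_rfl⟩ hs
  simp only [sub_self, mul_zero, Real.exp_zero, one_mul] at h3
  calc w s0 * Real.exp (K * (s - s0))
      ≤ (Real.exp (-K * (s - s0)) * w s) * Real.exp (K * (s - s0)) :=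
        mul_le_mul_of_nonneg_right h3 (Real.exp_pos _).le
    _ = w s * (Real.exp (-K * (s - s0)) * Real.exp (K * (s - s0))) := by ring
    _ = w s := by rw [← Real.exp_add]; simp

/-- comparison: `w' ≤ K w` -/
lemma exp_ge {w w' : ℝ → ℝ} {s0 s K : ℝ} (hs : s0 ≤ s) (hw : ∀ t, HasDerivAt w (w' t) t)
    (h : ∀ t ∈ Ioo s0 s, w' t ≤ K * w t) : w s ≤ w s0 * Real.exp (K * (s - s0)) := by
  have := exp_le (w := fun t => - w t) (w' := fun t => - w' t) (K := K) hs
    (fun t => (hw t).neg) (fun t ht => by have := h t ht; linarith)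
  simp only [neg_mul] at this
  linarith

/-- the nonlinearity -/
noncomputable def FF (s u : ℝ) : ℝ := (max u 0) ^ 4 + Real.exp (-2 * s) * (max u 0) ^ 7

lemma FF_nonneg (s u : ℝ) : 0 ≤ FF s u := by
  unfold FF
  have h1 : 0 ≤ max u 0 := le_max_right _ _
  have := (Real.exp_pos (-2 * s)).le
  positivity

lemma FF_pos {s u : ℝ} (hu : 0 < u) : 0 < FF s u := by
  unfold FF
  rw [max_eq_left hu.le]
  have := (Real.exp_pos (-2 * s))
  positivity

lemma FF_mono {s u v : ℝ} (h : u ≤ v) : FF s u ≤ FF s v := by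
  unfold FF
  have h1 : 0 ≤ max u 0 := le_max_right _ _
  have h2 : max u 0 ≤ max v 0 := max_le_max_right 0 h
  have h3 := (Real.exp_pos (-2 * s)).le
  gcongr

lemma exp_le_z0 {s0 s : ℝ} (hs : s0 ≤ s) : Real.exp (-2 * s) ≤ Real.exp (-2 * s0) :=
  Real.exp_le_exp.2 (by linarith)

lemma FF_le {s0 s u xm : ℝ} (hs : s0 ≤ s) (hx : 0 < xm) (hu : u ≤ xm) :
    FF s u ≤ xm ^ 4 + Real.exp (-2 * s0) * xm ^ 7 := by
  unfold FF
  have h1 : 0 ≤ max u 0 := le_max_right _ _
  have h2 : max u 0 ≤ xm := max_le hu hx.le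
  have h3 := (Real.exp_pos (-2 * s)).le
  have h4 := exp_le_z0 hs
  have h5 : (0:ℝ) ≤ Real.exp (-2 * s0) := (Real.exp_pos _).le
  gcongr

lemma pow_sub_le {n : ℕ} {p q M : ℝ} (hp : 0 ≤ p) (hpq : p ≤ q) (hq : q ≤ M) :
    q ^ (n + 1) - p ^ (n + 1) ≤ (n + 1) * M ^ n * (q - p) := by
  have hM : 0 ≤ M := hp.trans (hpq.trans hq)
  have hq0 : 0 ≤ q := hp.trans hpq
  rw [← (Commute.all q p).geom_sum₂_mul (n + 1)]
  apply mul_le_mul_of_nonneg_right _ (by linarith)
  calc ∑ i ∈ Finset.range (n + 1), q ^ i * p ^ (n + 1 - 1 - i)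
      ≤ ∑ i ∈ Finset.range (n + 1), M ^ n := by
        apply Finset.sum_le_sum
        intro i hi
        have hi' : i ≤ n := by
          have := Finset.mem_range.1 hi
          omega
        calc q ^ i * p ^ (n + 1 - 1 - i) ≤ M ^ i * M ^ (n + 1 - 1 - i) := by
              apply mul_le_mul (pow_le_pow_left₀ hq0 hq i)
                (pow_le_pow_left₀ hp (hpq.trans hq) _) (by positivity) (by positivity)
          _ = M ^ n := by
              rw [← pow_add]
              congr 1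
              omega
    _ = (n + 1) * M ^ n := by
        rw [Finset.sum_const, Finset.card_range, nsmul_eq_mul]
        push_cast
        ring

lemma FF_sub_le {s0 s u v xm : ℝ} (hs : s0 ≤ s) (hx : 0 < xm) (huv : u ≤ v) (hv : v ≤ xm) :
    FF s v - FF s u ≤ (4 * xm ^ 3 + 7 * Real.exp (-2 * s0) * xm ^ 6) * (v - u) := by
  unfold FF
  have h1 : 0 ≤ max u 0 := le_max_right _ _
  have h2 : max u 0 ≤ max v 0 := max_le_max_right 0 huv
  have h2' : max v 0 ≤ xm := max_le hv hx.le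
  have h3 := (Real.exp_pos (-2 * s)).le
  have h4 := exp_le_z0 hs
  have h5 : (0:ℝ) ≤ Real.exp (-2 * s0) := (Real.exp_pos _).le
  have h6 : max v 0 - max u 0 ≤ v - u := by
    rcases le_total v 0 with h | h
    · rw [max_eq_right h, max_eq_right (huv.trans h)]; linarith
    · rw [max_eq_left h]
      have := le_max_left u 0
      linarith
  have a1 : (max v 0) ^ 4 - (max u 0) ^ 4 ≤ 4 * xm ^ 3 * (max v 0 - max u 0) := by
    have := pow_sub_le (n := 3) h1 h2 h2'
    refine this.trans (le_of_eq ?_)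
    push_cast; ring
  have a2 : (max v 0) ^ 7 - (max u 0) ^ 7 ≤ 7 * xm ^ 6 * (max v 0 - max u 0) := by
    have := pow_sub_le (n := 6) h1 h2 h2'
    refine this.trans (le_of_eq ?_)
    push_cast; ring
  have b1 : 0 ≤ max v 0 - max u 0 := by linarith
  have b2 : (max v 0) ^ 4 - (max u 0) ^ 4 ≤ 4 * xm ^ 3 * (v - u) :=
    a1.trans (mul_le_mul_of_nonneg_left h6 (by positivity))
  have b3 : (max v 0) ^ 7 - (max u 0) ^ 7 ≤ 7 * xm ^ 6 * (v - u) :=
    a2.trans (mul_le_mul_of_nonneg_left h6 (by positivity))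
  have b4 : Real.exp (-2 * s) * ((max v 0) ^ 7 - (max u 0) ^ 7) ≤
      Real.exp (-2 * s0) * (7 * xm ^ 6 * (v - u)) := by
    apply mul_le_mul h4 b3 _ h5
    have := pow_le_pow_left₀ h1 h2 7
    linarith
  nlinarith

lemma psol_dy {x y : ℝ → ℝ} (h : PSol x y) (s : ℝ) :
    HasDerivAt y (2 / 3 * y s - FF s (x s)) s := by
  have := h.dy s
  unfold FF
  convert this using 1
  ring

lemma psol_cx {x y : ℝ → ℝ} (h : PSol x y) : Continuous x :=
  continuous_iff_continuousAt.2 fun s => (h.dx s).continuousAt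

lemma psol_cy {x y : ℝ → ℝ} (h : PSol x y) : Continuous y :=
  continuous_iff_continuousAt.2 fun s => (h.dy s).continuousAt

/-- `y e^{-2s/3}` is nonincreasing -/
lemma y_le {x y : ℝ → ℝ} (h : PSol x y) {s s' : ℝ} (hs : s ≤ s') :
    y s' ≤ y s * Real.exp (2 / 3 * (s' - s)) :=
  exp_ge hs (psol_dy h) (fun t _ => by have := FF_nonneg t (x t); linarith)

lemma y_pos_of {x y : ℝ → ℝ} (h : PSol x y) {s s' : ℝ} (hs : s ≤ s') (hy : 0 < y s') :
    0 < y s := by
  have h1 := y_le h hs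
  by_contra hneg
  have h2 : y s * Real.exp (2 / 3 * (s' - s)) ≤ 0 :=
    mul_nonpos_of_nonpos_of_nonneg (not_lt.1 hneg) (Real.exp_pos _).le
  linarith

lemma kappa_deriv {x y : ℝ → ℝ} (h : PSol x y) (s : ℝ) :
    HasDerivAt (fun s => x s - y s) (-(1 / 3) * (x s - y s) + FF s (x s)) s := by
  exact ((h.dx s).fun_sub (psol_dy h s)).congr_deriv (by ring)

lemma kappa_nonneg {x y : ℝ → ℝ} (h : PSol x y) {s s' : ℝ} (hs : s ≤ s') (hy : y s ≤ x s) :
    y s' ≤ x s' := by
  have h1 := exp_le (K := -(1/3)) hs (kappa_deriv h)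
    (fun t _ => by have := FF_nonneg t (x t); linarith)
  have h2 : 0 ≤ (x s - y s) * Real.exp (-(1/3) * (s' - s)) :=
    mul_nonneg (by linarith) (Real.exp_pos _).le
  linarith

/-- trap -/
lemma trap {x y : ℝ → ℝ} (h : PSol x y) {s0 S ε xm C4 : ℝ} (hxm : 0 < xm)
    (hC4 : C4 = xm ^ 4 + Real.exp (-2 * s0) * xm ^ 7) (h3 : 3 * C4 + ε < xm)
    (hx0 : x s0 < xm)
    (hΨ : 0 < y s0 → 3 * C4 < x s0 - y s0 →
      (x s0 - y s0 - 3 * C4) ^ 2 * y s0 < (xm - 3 * C4 - ε) ^ 2 * ε)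
    (hy : ∀ r ∈ Icc s0 S, y r ≤ ε) : ∀ r ∈ Icc s0 S, x r < xm := by
  have key : ∀ r ∈ Icc s0 S, 0 < xm - x r := by
    apply first_fail
    · exact (continuous_const.sub (psol_cx h)).continuousOn
    · linarith
    · intro s hs hbefore
      by_contra hneg
      have hxs : x s = xm := by
        apply le_antisymm _ (by linarith)
        have hc : ContinuousWithinAt x (Ico s0 s) s := (psol_cx h).continuousWithinAt
        have hcl : s ∈ closure (Ico s0 s) := by
          rw [closure_Ico (ne_of_lt hs.1)]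
          exact ⟨hs.1.le, le_rfl⟩
        exact hc.closure_le hcl continuousWithinAt_const
          (fun r hr => by have := hbefore r hr; linarith)
      have hle : ∀ r ∈ Icc s0 s, x r ≤ xm := by
        intro r hr
        rcases eq_or_lt_of_le hr.2 with h1 | h1
        · rw [h1, hxs]
        · have := hbefore r ⟨hr.1, h1⟩; linarith
      -- derivative at s is nonnegative
      have hder : 0 ≤ y s - x s / 3 := by
        have hd := (h.dx s).hasDerivWithinAt (s := Iio s)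
        by_contra hlt
        push Not at hlt
        have hev := (hasDerivWithinAt_iff_tendsto_slope.1 hd).eventually (gt_mem_nhds hlt)
        have hmem : Ioo s0 s ∈ nhdsWithin s (Iio s \ {s}) := by
          have : Iio s \ {s} = Iio s := by
            ext r; simp
          rw [this]
          exact Ioo_mem_nhdsLT hs.1
        have hne : (nhdsWithin s (Iio s \ {s})).NeBot := by
          have : Iio s \ {s} = Iio s := by
            ext r; simp
          rw [this]
          infer_instance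
        obtain ⟨r, hr1, hr2⟩ := (hev.and hmem).exists
        rw [slope_def_field] at hr1
        have hr3 := hle r ⟨hr2.1.le, hr2.2.le⟩
        have : 0 ≤ (x r - x s) / (r - s) :=
          div_nonneg_of_nonpos (by linarith) (by linarith [hr2.2])
        linarith
      have hyspos : xm / 3 ≤ y s := by rw [hxs] at hder; linarith
      have hys : 0 < y s := by linarith
      have hyse : y s ≤ ε := hy s ⟨hs.1.le, hs.2⟩
      have hy0 : 0 < y s0 := y_pos_of h hs.1.le hys
      -- kappa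
      have hk : ∀ t, HasDerivAt (fun t => x t - y t - 3 * C4)
          (-(1 / 3) * (x t - y t) + FF t (x t)) t := fun t => by
        simpa using (kappa_deriv h t).sub_const (3 * C4)
      have hk1 := exp_ge (K := -(1/3)) hs.1.le hk (fun t ht => by
        have h1 := FF_le ht.1.le hxm (hle t ⟨ht.1.le, ht.2.le⟩)
        rw [← hC4] at h1
        linarith)
      have hks : 0 < x s - y s - 3 * C4 := by rw [hxs]; linarith
      have hk0 : 0 < x s0 - y s0 - 3 * C4 := by
        by_contra hneg'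
        have : (x s0 - y s0 - 3 * C4) * Real.exp (-(1/3) * (s - s0)) ≤ 0 :=
          mul_nonpos_of_nonpos_of_nonneg (not_lt.1 hneg') (Real.exp_pos _).le
        linarith
      have hΨ0 := hΨ hy0 (by linarith)
      have hyy := y_le h hs.1.le
      have hprod : (x s - y s - 3 * C4) ^ 2 * y s ≤ (x s0 - y s0 - 3 * C4) ^ 2 * y s0 := by
        calc (x s - y s - 3 * C4) ^ 2 * y s
            ≤ ((x s0 - y s0 - 3 * C4) * Real.exp (-(1/3) * (s - s0))) ^ 2 *
              (y s0 * Real.exp (2 / 3 * (s - s0))) := by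
              apply mul_le_mul (pow_le_pow_left₀ hks.le hk1 2) hyy hys.le (by positivity)
          _ = (x s0 - y s0 - 3 * C4) ^ 2 * y s0 *
              (Real.exp (-(1/3) * (s - s0)) ^ 2 * Real.exp (2 / 3 * (s - s0))) := by ring
          _ = (x s0 - y s0 - 3 * C4) ^ 2 * y s0 := by
              rw [← Real.exp_nat_mul, ← Real.exp_add]
              have : ((2:ℕ):ℝ) * (-(1/3) * (s - s0)) + 2 / 3 * (s - s0) = 0 := by
                push_cast; ring
              rw [this]; simp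
      rw [hxs] at hprod
      -- the cubic
      have hC4nn : 0 ≤ C4 := by
        rw [hC4]; have := (Real.exp_pos (-2 * s0)).le; positivity
      set c := xm - 3 * C4 with hc
      have e1 : xm - y s - 3 * C4 = c - y s := by rw [hc]; ring
      rw [e1] at hprod
      have f1 : c ≤ 3 * y s := by rw [hc]; linarith
      have f2 : (c - y s - ε) ^ 2 ≤ (y s) ^ 2 := by
        apply sq_le_sq'
        · have : 0 < c - ε := by rw [hc]; linarith
          linarith
        · linarith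
      have f3 : (y s) ^ 2 ≤ y s * ε := by nlinarith
      have f4 : (y s - ε) * ((c - y s - ε) ^ 2 - y s * ε) ≥ 0 := by
        apply mul_nonneg_of_nonpos_of_nonpos <;> linarith
      have f5 : (c - y s) ^ 2 * y s - (c - ε) ^ 2 * ε =
          (y s - ε) * ((c - y s - ε) ^ 2 - y s * ε) := by ring
      linarith
  intro r hr
  have := key r hr
  linarith

lemma cone_pair {xa ya xb yb : ℝ → ℝ} (ha : PSol xa ya) (hb : PSol xb yb)
    {s0 S ε xm c1 c2 C4 Gm : ℝ} (hxm : 0 < xm) (hc1 : 0 < c1) (hc1' : c1 < 1) (hc2 : 1 < c2)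
    (hC4 : C4 = xm ^ 4 + Real.exp (-2 * s0) * xm ^ 7)
    (hGm : Gm = 4 * xm ^ 3 + 7 * Real.exp (-2 * s0) * xm ^ 6)
    (hG1 : c2 ^ 2 * Gm < c2 - 1) (h3 : 3 * C4 + ε < xm)
    (hx0 : xb s0 < xm)
    (hΨ : 0 < yb s0 → 3 * C4 < xb s0 - yb s0 →
      (xb s0 - yb s0 - 3 * C4) ^ 2 * yb s0 < (xm - 3 * C4 - ε) ^ 2 * ε)
    (h0 : 0 < yb s0 - ya s0) (h1 : c1 * (yb s0 - ya s0) < xb s0 - xa s0)
    (h2 : xb s0 - xa s0 < c2 * (yb s0 - ya s0))
    (hy : ∀ r ∈ Icc s0 S, yb r ≤ ε) :
    ∀ r ∈ Icc s0 S, (0 < yb r - ya r ∧ c1 * (yb r - ya r) < xb r - xa r ∧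
      xb r - xa r < c2 * (yb r - ya r)) ∧
      (yb s0 - ya s0) * Real.exp ((2 / 3 - c2 * Gm) * (r - s0)) ≤ yb r - ya r := by
  have htrap := trap hb hxm hC4 h3 hx0 hΨ hy
  have hGm0 : 0 ≤ Gm := by rw [hGm]; have := (Real.exp_pos (-2 * s0)).le; positivity
  -- one step
  have hD : ∀ r ∈ Icc s0 S, 0 < xb r - xa r → 0 ≤ FF r (xb r) - FF r (xa r) ∧
      FF r (xb r) - FF r (xa r) ≤ Gm * (xb r - xa r) := by
    intro r hr hX
    refine ⟨by have := FF_mono (s := r) (show xa r ≤ xb r by linarith); linarith, ?_⟩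
    rw [hGm]
    exact FF_sub_le hr.1 hxm (by linarith) (htrap r hr).le
  have dY : ∀ t, HasDerivAt (fun t => yb t - ya t)
      (2 / 3 * (yb t - ya t) - (FF t (xb t) - FF t (xa t))) t := fun t =>
    ((psol_dy hb t).fun_sub (psol_dy ha t)).congr_deriv (by ring)
  have dX : ∀ t, HasDerivAt (fun t => xb t - xa t) ((yb t - ya t) - (xb t - xa t) / 3) t :=
    fun t => ((hb.dx t).fun_sub (ha.dx t)).congr_deriv (by ring)
  have dl : ∀ t, HasDerivAt (fun t => (xb t - xa t) - c1 * (yb t - ya t))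
      (((yb t - ya t) - (xb t - xa t) / 3) -
        c1 * (2 / 3 * (yb t - ya t) - (FF t (xb t) - FF t (xa t)))) t :=
    fun t => (dX t).fun_sub ((dY t).const_mul c1)
  have du : ∀ t, HasDerivAt (fun t => c2 * (yb t - ya t) - (xb t - xa t))
      (c2 * (2 / 3 * (yb t - ya t) - (FF t (xb t) - FF t (xa t))) -
        ((yb t - ya t) - (xb t - xa t) / 3)) t :=
    fun t => ((dY t).const_mul c2).fun_sub (dX t)
  have cont := fun (f : ℝ → ℝ) (f' : ℝ → ℝ) (hf : ∀ t, HasDerivAt f (f' t) t) =>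
    continuous_iff_continuousAt.2 (fun t => (hf t).continuousAt)
  have stepY : ∀ s ∈ Icc s0 S, (∀ r ∈ Ico s0 s, 0 < yb r - ya r ∧
      c1 * (yb r - ya r) < xb r - xa r ∧ xb r - xa r < c2 * (yb r - ya r)) →
      (yb s0 - ya s0) * Real.exp ((2 / 3 - c2 * Gm) * (s - s0)) ≤ yb s - ya s := by
    intro s hs hb'
    refine exp_le hs.1 dY (fun t ht => ?_)
    obtain ⟨e1, e2, e3⟩ := hb' t ⟨ht.1.le, ht.2⟩
    have hX : 0 < xb t - xa t := lt_trans (mul_pos hc1 e1) e2
    obtain ⟨d1, d2⟩ := hD t ⟨ht.1.le, ht.2.le.trans hs.2⟩ hX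
    have d3 : Gm * (xb t - xa t) ≤ Gm * (c2 * (yb t - ya t)) :=
      mul_le_mul_of_nonneg_left e3.le hGm0
    nlinarith
  have key : ∀ r ∈ Icc s0 S, 0 < min (yb r - ya r)
      (min ((xb r - xa r) - c1 * (yb r - ya r)) (c2 * (yb r - ya r) - (xb r - xa r))) := by
    apply first_fail
    · exact ((cont _ _ dY).min ((cont _ _ dl).min (cont _ _ du))).continuousOn
    · simp only [lt_min_iff]
      exact ⟨h0, by linarith, by linarith⟩
    · intro s hs hbef
      have hb' : ∀ r ∈ Ico s0 s, 0 < yb r - ya r ∧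
          c1 * (yb r - ya r) < xb r - xa r ∧ xb r - xa r < c2 * (yb r - ya r) := by
        intro r hr
        have := hbef r hr
        simp only [lt_min_iff] at this
        exact ⟨this.1, by linarith [this.2.1], by linarith [this.2.2]⟩
      have kY := stepY s ⟨hs.1.le, hs.2⟩ hb'
      have kl := exp_le (K := -(1/3)) hs.1.le dl (fun t ht => by
        obtain ⟨e1, e2, e3⟩ := hb' t ⟨ht.1.le, ht.2⟩
        have hX : 0 < xb t - xa t := lt_trans (mul_pos hc1 e1) e2
        obtain ⟨d1, d2⟩ := hD t ⟨ht.1.le, ht.2.le.trans hs.2⟩ hX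
        have d3 : 0 ≤ c1 * (FF t (xb t) - FF t (xa t)) := mul_nonneg hc1.le d1
        have d4 : 0 ≤ (1 - c1) * (yb t - ya t) := mul_nonneg (by linarith) e1.le
        nlinarith)
      have ku := exp_le (K := c2 * Gm - 1/3) hs.1.le du (fun t ht => by
        obtain ⟨e1, e2, e3⟩ := hb' t ⟨ht.1.le, ht.2⟩
        have hX : 0 < xb t - xa t := lt_trans (mul_pos hc1 e1) e2
        obtain ⟨d1, d2⟩ := hD t ⟨ht.1.le, ht.2.le.trans hs.2⟩ hX
        have d3 : 0 ≤ c2 * (Gm * (xb t - xa t) - (FF t (xb t) - FF t (xa t))) :=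
          mul_nonneg (by linarith) (by linarith)
        have d4 : 0 ≤ (c2 - 1 - c2 ^ 2 * Gm) * (yb t - ya t) :=
          mul_nonneg (by linarith) e1.le
        nlinarith)
      simp only [lt_min_iff]
      refine ⟨lt_of_lt_of_le (mul_pos h0 (Real.exp_pos _)) kY,
        lt_of_lt_of_le (mul_pos (by linarith) (Real.exp_pos _)) kl,
        lt_of_lt_of_le (mul_pos (by linarith) (Real.exp_pos _)) ku⟩
  have key' : ∀ r ∈ Icc s0 S, 0 < yb r - ya r ∧
      c1 * (yb r - ya r) < xb r - xa r ∧ xb r - xa r < c2 * (yb r - ya r) := by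
    intro r hr
    have := key r hr
    simp only [lt_min_iff] at this
    exact ⟨this.1, by linarith [this.2.1], by linarith [this.2.2]⟩
  intro r hr
  exact ⟨key' r hr, stepY r hr (fun t ht => key' t ⟨ht.1, ht.2.le.trans hr.2⟩)⟩

lemma exp_large {w0 lam : ℝ} (hw : 0 < w0) (hl : 0 < lam) (s0 M : ℝ) :
    ∃ s, s0 ≤ s ∧ M < w0 * Real.exp (lam * (s - s0)) := by
  refine ⟨s0 + |M| / (w0 * lam), by have : 0 ≤ |M| / (w0 * lam) := by positivity
                                    linarith, ?_⟩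
  have e1 : lam * (s0 + |M| / (w0 * lam) - s0) = |M| / w0 := by field_simp; ring
  rw [e1]
  have e2 := Real.add_one_le_exp (|M| / w0)
  calc M ≤ |M| := le_abs_self M
    _ < |M| + w0 := by linarith
    _ = w0 * (|M| / w0 + 1) := by field_simp
    _ ≤ _ := mul_le_mul_of_nonneg_left e2 hw.le

/-- positive derivative: larger values just to the right -/
lemma exists_gt_right {f : ℝ → ℝ} {f' t : ℝ} (h : HasDerivAt f f' t) (hpos : 0 < f') :
    ∃ s, t < s ∧ f t < f s := by
  have hd := h.hasDerivWithinAt (s := Ioi t)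
  have hs : Ioi t \ {t} = Ioi t := by ext r; simp
  have hev := (hasDerivWithinAt_iff_tendsto_slope.1 hd).eventually (lt_mem_nhds hpos)
  rw [hs] at hev
  have hmem : ∀ᶠ r in nhdsWithin t (Ioi t), r ∈ Ioi t := self_mem_nhdsWithin
  obtain ⟨r, hr1, hr2⟩ := (hev.and hmem).exists
  refine ⟨r, hr2, ?_⟩
  rw [slope_def_field] at hr1
  have h2 : 0 < r - t := by have : t < r := hr2; linarith
  have := (div_pos_iff_of_pos_right h2).1 hr1
  linarith

theorem p : P6_window := by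
  intro x y A B s0 ε xm c1 c2 z0 Gm C4 hAB hε hxm hc1 hc1' hc2 hz0 hGm hC4 hG1 hG2 hCε h3 hsol
    hlip hinit hΨ hpair hyA hyB
  subst hz0
  have hC4nn : 0 ≤ C4 := by rw [hC4]; have := (Real.exp_pos (-2 * s0)).le; positivity
  have trapa : ∀ a ∈ Icc A B, ∀ S, (∀ r ∈ Icc s0 S, y a r ≤ ε) → ∀ r ∈ Icc s0 S, x a r < xm :=
    fun a ha S hy => trap (hsol a ha) hxm hC4 h3 (hinit a ha).2.1 (hΨ a ha) hy
  have conep : ∀ a ∈ Icc A B, ∀ b ∈ Icc A B, a < b → ∀ S, (∀ r ∈ Icc s0 S, y b r ≤ ε) →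
      ∀ r ∈ Icc s0 S, (0 < y b r - y a r ∧ c1 * (y b r - y a r) < x b r - x a r ∧
      x b r - x a r < c2 * (y b r - y a r)) ∧
      (y b s0 - y a s0) * Real.exp ((2 / 3 - c2 * Gm) * (r - s0)) ≤ y b r - y a r := by
    intro a ha b hb hab S hy
    obtain ⟨p1, p2, p3⟩ := hpair a ha b hb hab
    exact cone_pair (hsol a ha) (hsol b hb) hxm hc1 hc1' hc2 hC4 hGm hG1 h3
      (hinit b hb).2.1 (hΨ b hb) p1 p2 p3 hy
  have hκ : ∀ a ∈ Icc A B, ∀ s, s0 ≤ s → y a s ≤ x a s :=
    fun a ha s hs => kappa_nonneg (hsol a ha) hs (hinit a ha).2.2.2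
  have yneg : ∀ a ∈ Icc A B, ∀ s s', s ≤ s' → y a s < 0 → y a s' < 0 := by
    intro a ha s s' hs h
    exact lt_of_le_of_lt (y_le (hsol a ha) hs) (mul_neg_of_neg_of_pos h (Real.exp_pos _))
  have near : ∀ b ∈ Icc A B, ∀ S, s0 < S → ∀ η > 0, ∃ δ > 0, ∀ a ∈ Icc A B, |a - b| < δ →
      ∀ s ∈ Icc s0 S, |y a s - y b s| < η := by
    intro b hb S hS η hη
    obtain ⟨C, hC, hC'⟩ := hlip S hS
    refine ⟨η / C, by positivity, fun a ha hab s hs => ?_⟩
    calc |y a s - y b s| ≤ C * |a - b| := (hC' a ha b hb s hs).2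
      _ < C * (η / C) := mul_lt_mul_of_pos_left hab hC
      _ = η := by field_simp
  obtain ⟨G, hG⟩ : ∃ G : Set ℝ, G = {a | a ∈ Icc A B ∧ ∀ s, s0 ≤ s → y a s < ε} := ⟨_, rfl⟩
  have hAI : A ∈ Icc A B := ⟨le_rfl, hAB.le⟩
  have hBI : B ∈ Icc A B := ⟨hAB.le, le_rfl⟩
  have memG : ∀ a, a ∈ G ↔ a ∈ Icc A B ∧ ∀ s, s0 ≤ s → y a s < ε := by
    intro a; rw [hG]; rfl
  have negG : ∀ a ∈ Icc A B, y a s0 < 0 → a ∈ G := by
    intro a ha h
    rw [memG]
    exact ⟨ha, fun s hs => (yneg a ha s0 s hs h).trans hε⟩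
  have hAG : A ∈ G := negG A hAI hyA
  have hBG : B ∉ G := by
    rw [memG]
    rintro ⟨-, hB⟩
    have hxB : ∀ s, s0 ≤ s → x B s < xm := fun s hs =>
      trapa B hBI s (fun r hr => (hB r hr.1).le) s ⟨hs, le_rfl⟩
    obtain ⟨s, hs, hlarge⟩ := exp_large (w0 := y B s0 - 3 / 2 * C4) (lam := 2 / 3) (by linarith)
      (by norm_num) s0 ε
    have hd : ∀ t, HasDerivAt (fun t => y B t - 3 / 2 * C4)
        (2 / 3 * y B t - FF t (x B t)) t := fun t => (psol_dy (hsol B hBI) t).sub_const _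
    have := exp_le (K := 2 / 3) hs hd (fun t ht => by
      have h1 := FF_le ht.1.le hxm (hxB t ht.1.le).le
      rw [← hC4] at h1
      linarith)
    have h2 := hB s hs
    linarith
  have seg : ∀ a ∈ Icc A B, ∀ b ∈ G, a < b → a ∈ G := by
    intro a ha b hb hab
    rw [memG] at hb ⊢
    refine ⟨ha, fun s hs => ?_⟩
    have := (conep a ha b hb.1 hab s (fun r hr => (hb.2 r hr.1).le) s ⟨hs, le_rfl⟩).1.1
    have := hb.2 s hs
    linarith
  have hGne : G.Nonempty := ⟨A, hAG⟩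
  have hGbd : BddAbove G := ⟨B, fun a ha => ((memG a).1 ha).1.2⟩
  obtain ⟨α, hα⟩ : ∃ α, α = sSup G := ⟨_, rfl⟩
  have hle : ∀ a ∈ G, a ≤ α := fun a ha => by rw [hα]; exact le_csSup hGbd ha
  have hαI : α ∈ Icc A B := ⟨hle A hAG, by rw [hα]; exact csSup_le hGne (fun a ha => ((memG a).1 ha).1.2)⟩
  have hAα : A < α := by
    obtain ⟨δ, hδ, hn⟩ := near A hAI (s0 + 1) (by linarith) (-(y A s0)) (by linarith)
    have ha : min (A + δ / 2) B ∈ Icc A B := ⟨le_min (by linarith) hAB.le, min_le_right _ _⟩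
    have h1 : |min (A + δ / 2) B - A| < δ := by
      rw [abs_of_nonneg (by linarith [ha.1])]
      have := min_le_left (A + δ / 2) B
      linarith
    have h2 := abs_lt.1 (hn _ ha h1 s0 ⟨le_rfl, by linarith⟩)
    have h3 := hle _ (negG _ ha (by linarith [h2.2]))
    have h4 : A < min (A + δ / 2) B := lt_min (by linarith) hAB
    linarith
  have hαG : α ∈ G := by
    by_contra hcon
    rw [memG] at hcon
    push Not at hcon
    obtain ⟨s, hs, hys⟩ := hcon hαI
    obtain ⟨T, hT, hT1, hT2⟩ := first_hit (m := fun s => ε - y α s)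
      (continuous_const.sub (psol_cy (hsol α hαI))).continuousOn hs
      (by have := (hinit α hαI).2.2.1; linarith) (by linarith)
    have hyT : y α T = ε := by linarith
    have hxT := trapa α hαI T (fun r hr => by
      rcases eq_or_lt_of_le hr.2 with h | h
      · rw [h, hyT]
      · have := hT2 r ⟨hr.1, h⟩; linarith) T ⟨hT.1.le, le_rfl⟩
    have hF := FF_le (s := T) hT.1.le hxm hxT.le
    rw [← hC4] at hF
    obtain ⟨s2, hs2, hy2⟩ := exists_gt_right (psol_dy (hsol α hαI) T) (by rw [hyT]; linarith)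
    rw [hyT] at hy2
    obtain ⟨δ, hδ, hn⟩ := near α hαI s2 (by linarith [hT.1]) (y α s2 - ε) (by linarith)
    obtain ⟨a, haG, haα⟩ := exists_lt_of_lt_csSup hGne (show α - δ < sSup G by rw [← hα]; linarith)
    have h1 := hle a haG
    have h2 := abs_lt.1 (hn a ((memG a).1 haG).1 (by rw [abs_lt]; constructor <;> linarith) s2
      ⟨by linarith [hT.1], le_rfl⟩)
    have h3 := ((memG a).1 haG).2 s2 (by linarith [hT.1])
    linarith [h2.1]
  have hαB : α < B := lt_of_le_of_ne hαI.2 (by rintro rfl; exact hBG hαG)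
  have hαε := ((memG α).1 hαG).2
  have ypos : ∀ s, s0 ≤ s → 0 < y α s := by
    by_contra hcon
    push Not at hcon
    obtain ⟨s, hs, hys⟩ := hcon
    have hx0 := (hinit α hαI).1
    obtain ⟨T, hT0, hTy, hTx⟩ : ∃ T, s0 ≤ T ∧ y α T ≤ 0 ∧ 0 < x α T := by
      rcases le_or_gt (y α s0) 0 with h | h
      · exact ⟨s0, le_rfl, h, hx0⟩
      · obtain ⟨T, hT, hT1, hT2⟩ := first_hit (psol_cy (hsol α hαI)).continuousOn hs h hys
        refine ⟨T, hT.1.le, hT1.le, ?_⟩
        have := exp_le (K := -(1/3)) hT.1.le (hsol α hαI).dx (fun t ht => by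
          have := hT2 t ⟨ht.1.le, ht.2⟩
          linarith)
        exact lt_of_lt_of_le (mul_pos hx0 (Real.exp_pos _)) this
    obtain ⟨s', hs', hys'⟩ : ∃ s', T < s' ∧ y α s' < 0 := by
      have hF := FF_pos (s := T) hTx
      obtain ⟨s', h1, h2⟩ := exists_gt_right (psol_dy (hsol α hαI) T).fun_neg (by linarith)
      exact ⟨s', h1, by linarith⟩
    have hs0s' : s0 < s' := by linarith
    obtain ⟨r, hr, hmax⟩ := isCompact_Icc.exists_isMaxOn (nonempty_Icc.2 hs0s'.le)
      (psol_cy (hsol α hαI)).continuousOn (s := Icc s0 s')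
    have hM := hαε r hr.1
    obtain ⟨δ, hδ, hn⟩ := near α hαI s' hs0s' (min (ε - y α r) (-(y α s')))
      (lt_min (by linarith) (by linarith))
    have ha : min (α + δ / 2) B ∈ Icc A B :=
      ⟨le_min (by linarith [hαI.1]) hAB.le, min_le_right _ _⟩
    have hαa : α < min (α + δ / 2) B := lt_min (by linarith) hαB
    have h1 : |min (α + δ / 2) B - α| < δ := by
      rw [abs_of_nonneg (by linarith)]
      have := min_le_left (α + δ / 2) B
      linarith
    have h2 := hn _ ha h1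
    have haG : min (α + δ / 2) B ∈ G := by
      rw [memG]
      refine ⟨ha, fun t ht => ?_⟩
      rcases le_total t s' with h | h
      · have h3 := (abs_lt.1 (h2 t ⟨ht, h⟩)).2
        have h4 := min_le_left (ε - y α r) (-(y α s'))
        have h5 : y α t ≤ y α r := hmax ⟨ht, h⟩
        linarith
      · have h3 := (abs_lt.1 (h2 s' ⟨hs0s'.le, le_rfl⟩)).2
        have h4 := min_le_right (ε - y α r) (-(y α s'))
        exact (yneg _ ha s' t h (by linarith)).trans hε
    exact absurd (hle _ haG) (not_le.2 hαa)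
  have notG : ∀ a ∈ Ioc α B, a ∉ G := fun a ha h => absurd (hle a h) (not_le.2 ha.1)
  have IocI : ∀ a ∈ Ioc α B, a ∈ Icc A B := fun a ha => ⟨hαI.1.trans ha.1.le, ha.2⟩
  have IcoI : ∀ a ∈ Ico A α, a ∈ Icc A B := fun a ha => ⟨ha.1, ha.2.le.trans hαI.2⟩
  have IcoG : ∀ a ∈ Ico A α, a ∈ G := fun a ha => seg a (IcoI a ha) α hαG ha.2
  refine ⟨α, ⟨hAα, hαB⟩, ?_, ?_, ?_, ?_, ?_⟩
  · intro s hs
    exact ⟨ypos s hs, lt_of_lt_of_le (ypos s hs) (hκ α hαI s hs)⟩
  · intro a ha
    have haI := IcoI a ha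
    have hx0 := (hinit a haI).1
    have hsa := hsol a haI
    -- y a becomes negative
    obtain ⟨s1, hs1, hy1⟩ : ∃ s1, s0 ≤ s1 ∧ y a s1 < 0 := by
      obtain ⟨s, hs, hl⟩ := exp_large (hpair a haI α hαI ha.2).1
        (show 0 < 2 / 3 - c2 * Gm by linarith) s0 ε
      have h1 := (conep a haI α hαI ha.2 s (fun r hr => (hαε r hr.1).le) s ⟨hs, le_rfl⟩).2
      have h2 := hαε s hs
      exact ⟨s, hs, by linarith⟩
    obtain ⟨c, hc⟩ : ∃ c, c = - y a s1 := ⟨_, rfl⟩
    have hcpos : 0 < c := by linarith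
    have hyc : ∀ t, s1 ≤ t → y a t ≤ -c := by
      intro t ht
      have h1 := y_le hsa ht
      have h2 : 1 ≤ Real.exp (2 / 3 * (t - s1)) := Real.one_le_exp (by linarith)
      have h3 : y a s1 * Real.exp (2 / 3 * (t - s1)) ≤ y a s1 * 1 :=
        mul_le_mul_of_nonpos_left h2 hy1.le
      linarith
    obtain ⟨S, hS, hxS⟩ : ∃ S, s1 ≤ S ∧ x a S ≤ 0 := by
      obtain ⟨S, hS, hl⟩ := exp_large (w0 := 3 * c) (lam := 1 / 3) (by linarith) (by norm_num) s1
        (x a s1 + 3 * c)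
      refine ⟨S, hS, ?_⟩
      have hd : ∀ t, HasDerivAt (fun t => x a t + 3 * c) (y a t - x a t / 3) t :=
        fun t => (hsa.dx t).add_const _
      have h1 := exp_ge (K := -(1/3)) hS hd (fun t ht => by
        have := hyc t ht.1.le
        linarith)
      have h2 : (x a s1 + 3 * c) * Real.exp (-(1/3) * (S - s1)) ≤ 3 * c := by
        calc (x a s1 + 3 * c) * Real.exp (-(1/3) * (S - s1))
            ≤ (3 * c * Real.exp (1 / 3 * (S - s1))) * Real.exp (-(1/3) * (S - s1)) :=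
              mul_le_mul_of_nonneg_right hl.le (Real.exp_pos _).le
          _ = 3 * c * (Real.exp (1 / 3 * (S - s1)) * Real.exp (-(1/3) * (S - s1))) := by ring
          _ = 3 * c := by
              rw [← Real.exp_add]
              have : 1 / 3 * (S - s1) + -(1/3) * (S - s1) = 0 := by ring
              rw [this]; simp
      linarith
    obtain ⟨T, hT, hT1, hT2⟩ := first_hit (psol_cx hsa).continuousOn (hs1.trans hS) hx0 hxS
    exact ⟨T, hT.1, hT1, hT2⟩
  · intro a ha b hb hab sa sb hsa hsb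
    by_contra hcon
    have hbI := IcoI b hb
    have hbG := ((memG b).1 (IcoG b hb)).2
    have h1 := (conep a (IcoI a ha) b hbI hab sb (fun r hr => (hbG r hr.1).le) sb
      ⟨hsb.1.le, le_rfl⟩).1
    have h2 : 0 < x b sb - x a sb := lt_trans (mul_pos hc1 h1.1) h1.2.1
    rw [hsb.2.1] at h2
    rcases eq_or_lt_of_le (not_lt.1 hcon) with h | h
    · rw [h, hsa.2.1] at h2
      linarith
    · have := hsa.2.2 sb ⟨hsb.1.le, h⟩
      linarith
  · intro a ha
    have haI := IocI a ha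
    have hsa := hsol a haI
    have hnG := notG a ha
    rw [memG] at hnG
    push Not at hnG
    obtain ⟨s, hs, hys⟩ := hnG haI
    obtain ⟨T, hT, hT1, hT2⟩ := first_hit (m := fun s => ε - y a s)
      (continuous_const.sub (psol_cy hsa)).continuousOn hs
      (by have := (hinit a haI).2.2.1; linarith) (by linarith)
    have hyT : y a T = ε := by linarith
    have hyle : ∀ r ∈ Icc s0 T, y a r ≤ ε := fun r hr => by
      rcases eq_or_lt_of_le hr.2 with h | h
      · rw [h, hyT]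
      · have := hT2 r ⟨hr.1, h⟩; linarith
    have hxT := trapa a haI T hyle
    have hyp : ∀ r ∈ Icc s0 T, 0 < y a r := fun r hr => y_pos_of hsa hr.2 (by rw [hyT]; exact hε)
    refine ⟨T, ⟨hT.1, hyT, fun r hr => ⟨hyp r ⟨hr.1, hr.2.le⟩, by have := hT2 r hr; linarith⟩,
      fun r hr => ⟨lt_of_lt_of_le (hyp r hr) (hκ a haI r hr.1), hxT r hr, hκ a haI r hr.1⟩⟩, ?_⟩
    have h1 := y_le hsa hT.1.le
    rw [hyT] at h1
    have h2 := pow_le_pow_left₀ hε.le h1 3
    calc Real.exp (-2 * T) * ε ^ 3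
        ≤ Real.exp (-2 * T) * (y a s0 * Real.exp (2 / 3 * (T - s0))) ^ 3 :=
          mul_le_mul_of_nonneg_left h2 (Real.exp_pos _).le
      _ = (Real.exp (-2 * T) * Real.exp (2 / 3 * (T - s0)) ^ 3) * y a s0 ^ 3 := by ring
      _ = Real.exp (-2 * s0) * y a s0 ^ 3 := by
          rw [← Real.exp_nat_mul, ← Real.exp_add]
          congr 2
          push_cast
          ring
  · intro a ha b hb hab sa sb hsa hsb
    have haI := IocI a ha
    have hbI := IocI b hb
    have hyb : ∀ r ∈ Icc s0 sb, y b r ≤ ε := fun r hr => by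
      rcases eq_or_lt_of_le hr.2 with h | h
      · rw [h, hsb.2.1]
      · exact (hsb.2.2.1 r ⟨hr.1, h⟩).2.le
    have hcone := conep a haI b hbI hab sb hyb
    refine ⟨?_, fun s hs => ⟨(hcone s hs).1.1, (hcone s hs).1.2.1.le, (hcone s hs).1.2.2.le⟩⟩
    by_contra hcon
    have h1 := (hcone sa ⟨hsa.1.le, not_lt.1 hcon⟩).1.1
    have h2 := hyb sa ⟨hsa.1.le, not_lt.1 hcon⟩
    rw [hsa.2.1] at h1
    linarith

end Pool.Agent.W2helper56.LN
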